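import Pool.Agent.TH286.NC.M6

set_option autoImplicit false

/-! The real flow containing the skew product of `Pool.Agent.TH286.NC.M6` (for `MP_fc4783_an`). -/

open Filter Topology MeasureTheory Set
open scoped ENNReal Real

namespace Pool.Agent.Y919.NC

open Pool.Agent.TH286.NC (C1 ee ee_add ee_ne norm_ee continuous_ee ee_coe norm_le_half dsq
  abs_dsq_le continuous_dsq norm_coe_le MM one_dim ee_tsum)

section sys
variable (α a : ℕ → ℝ)

/-- the translation by `n` times `α` -/
noncomputable def tt (n : ℝ) (i : ℕ) : C1 := (((n : ℝ) * α i : ℝ) : C1)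

lemma tt_add (m n : ℝ) (i : ℕ) : tt α (m + n) i = tt α m i + tt α n i := by
  unfold tt
  rw [← AddCircle.coe_add]
  congr 1
  ring

lemma tt_zero (i : ℕ) : tt α 0 i = 0 := by
  unfold tt
  simp

/-- the cocycle -/
noncomputable def Phi (n : ℝ) (u : ℕ → C1) : ℝ := ∑' i, a i * dsq (tt α n i) (u i)

/-- the `n`-th iterate -/
noncomputable def Flow (n : ℝ) (x : (ℕ → C1) × C1) : (ℕ → C1) × C1 :=
  (fun i => x.1 i + tt α n i, x.2 + ((Phi α a n x.1 : ℝ) : C1))

variable {α a} (hα : ∀ i, 0 < α i ∧ α i < 1 / 4) (ha : Summable (fun i => |a i| * α i))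
include hα ha

omit ha in
lemma norm_tt_le (n : ℝ) (i : ℕ) : ‖tt α n i‖ ≤ |(n:ℝ)| * α i := by
  refine (norm_coe_le _).trans ?_
  rw [abs_mul, abs_of_pos (hα i).1]

omit ha in
lemma term_bound (n : ℝ) (i : ℕ) (v : C1) : ‖a i * dsq (tt α n i) v‖ ≤ |(n:ℝ)| * (|a i| * α i) := by
  rw [Real.norm_eq_abs, abs_mul]
  calc |a i| * |dsq (tt α n i) v| ≤ |a i| * (|(n:ℝ)| * α i) :=
        mul_le_mul_of_nonneg_left ((abs_dsq_le _ _).trans (norm_tt_le hα n i)) (abs_nonneg _)
    _ = _ := by ring

lemma summable_Phi (n : ℝ) (u : ℕ → C1) : Summable (fun i => a i * dsq (tt α n i) (u i)) :=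
  Summable.of_norm_bounded (ha.mul_left |(n:ℝ)|) fun i => term_bound hα n i (u i)

lemma continuous_Phi (n : ℝ) : Continuous (Phi α a n) := by
  unfold Phi
  apply continuous_tsum (u := fun i => |(n:ℝ)| * (|a i| * α i))
  · intro i
    exact continuous_const.mul ((continuous_dsq _).comp (continuous_apply i))
  · exact ha.mul_left _
  · intro i u
    exact term_bound hα n i (u i)

lemma continuous_Flow (n : ℝ) : Continuous (Flow α a n) := by
  unfold Flow
  have h1 : Continuous (fun x : (ℕ → C1) × C1 => ((Phi α a n x.1 : ℝ) : C1)) :=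
    (AddCircle.continuous_mk' (1:ℝ)).comp ((continuous_Phi hα ha n).comp continuous_fst)
  fun_prop

lemma Phi_add (m n : ℝ) (u : ℕ → C1) :
    Phi α a (m + n) u = Phi α a n u + Phi α a m (fun i => u i + tt α n i) := by
  unfold Phi
  rw [← (summable_Phi hα ha n u).tsum_add (summable_Phi hα ha m (fun i => u i + tt α n i))]
  congr 1
  funext i
  rw [tt_add]
  unfold dsq
  rw [show u i + (tt α m i + tt α n i) = u i + tt α n i + tt α m i by abel]
  ring

lemma Flow_add (m n : ℝ) (x : (ℕ → C1) × C1) :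
    Flow α a m (Flow α a n x) = Flow α a (m + n) x := by
  unfold Flow
  ext1
  · funext i
    simp only [tt_add]
    abel
  · simp only
    rw [Phi_add hα ha m n, AddCircle.coe_add]
    abel

omit hα ha in
lemma Flow_zero (x : (ℕ → C1) × C1) : Flow α a 0 x = x := by
  unfold Flow Phi dsq
  simp [tt_zero]


lemma mp_Flow (n : ℝ) : MeasurePreserving (Flow α a n) MM MM := by
  unfold MM
  have hbase : MeasurePreserving (fun (u : ℕ → C1) i => u i + tt α n i)
      (Measure.infinitePi (fun _ : ℕ => (volume : Measure C1)))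
      (Measure.infinitePi (fun _ : ℕ => (volume : Measure C1))) := by
    refine ⟨by fun_prop, ?_⟩
    rw [Measure.infinitePi_map_pi (f := fun i v => v + tt α n i) _ (fun i => by fun_prop)]
    have : (fun i : ℕ => Measure.map (fun v : C1 => v + tt α n i) volume) =
        fun _ => (volume : Measure C1) := by
      funext i
      exact (measurePreserving_add_right volume (tt α n i)).map_eq
    simp only [this]
  have h1 : Continuous (Function.uncurry fun (u : ℕ → C1) (w : C1) =>
      w + ((Phi α a n u : ℝ) : C1)) := by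
    have h2 : Continuous (fun x : (ℕ → C1) × C1 => ((Phi α a n x.1 : ℝ) : C1)) :=
      (AddCircle.continuous_mk' (1:ℝ)).comp ((continuous_Phi hα ha n).comp continuous_fst)
    exact continuous_snd.add h2
  exact hbase.skew_product h1.measurable (Eventually.of_forall fun u =>
    (measurePreserving_add_right volume _).map_eq)

end sys

/-- the correlation of the flow -/
noncomputable def corr (α a : ℕ → ℝ) (n : ℝ) : ℂ :=
  ∫ x, ee x.2 * ((ee (Flow α a n x).2)⁻¹ ^ 2 * ee (Flow α a (2 * n) x).2) ∂MM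

theorem corr_est (α a : ℕ → ℝ) (hα : ∀ i, 0 < α i ∧ α i < 1 / 4) (hα' : Summable α)
    (ha : Summable (fun i => |a i| * α i)) (n : ℝ) :
      ‖corr α a n -
        Complex.exp (4 * Real.pi * Complex.I *
          ((∑' i, a i * ‖(((n : ℝ) * α i : ℝ) : AddCircle (1 : ℝ))‖ ^ 2 : ℝ) : ℂ))‖ ≤
        8 * ∑' i, ‖(((n : ℝ) * α i : ℝ) : AddCircle (1 : ℝ))‖ := by
  unfold corr
  -- the integrand
  set c : ℝ := ∑' i, a i * (2 * ‖tt α n i‖ ^ 2) with hc
  set g : (ℕ → C1) → ℝ := fun u => ∑' i, a i * (‖u i + (tt α n i + tt α n i)‖^2 -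
    2 * ‖u i + tt α n i‖^2 + ‖u i‖^2) with hg
  have hsumX : ∀ u : ℕ → C1, Summable (fun i => a i * (‖u i + (tt α n i + tt α n i)‖^2 -
    2 * ‖u i + tt α n i‖^2 + ‖u i‖^2)) := by
    intro u
    have h1 := (summable_Phi hα ha (n + n) u).sub ((summable_Phi hα ha n u).mul_left 2)
    refine h1.congr fun i => ?_
    rw [tt_add]; unfold dsq; ring
  have hgu : ∀ u, g u = Phi α a (n + n) u - 2 * Phi α a n u := by
    intro u
    unfold Phi
    rw [← tsum_mul_left, ← (summable_Phi hα ha (n + n) u).tsum_sub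
      ((summable_Phi hα ha n u).mul_left 2), hg]
    simp only
    congr 1
    funext i
    rw [tt_add]; unfold dsq; ring
  have hsumc : Summable (fun i => a i * (2 * ‖tt α n i‖ ^ 2)) := by
    apply Summable.of_norm_bounded (ha.mul_left |(n:ℝ)|)
    intro i
    rw [Real.norm_eq_abs, abs_mul]
    have h1 : |2 * ‖tt α n i‖ ^ 2| ≤ ‖tt α n i‖ := by
      rw [abs_of_nonneg (by positivity)]
      nlinarith [norm_nonneg (tt α n i), norm_le_half (tt α n i)]
    calc |a i| * |2 * ‖tt α n i‖ ^ 2| ≤ |a i| * (|(n:ℝ)| * α i) :=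
          mul_le_mul_of_nonneg_left (h1.trans (norm_tt_le hα n i)) (abs_nonneg _)
      _ = _ := by ring
  have hexp : Complex.exp (4 * Real.pi * Complex.I *
      ((∑' i, a i * ‖(((n : ℝ) * α i : ℝ) : AddCircle (1 : ℝ))‖ ^ 2 : ℝ) : ℂ)) = ee (c : C1) := by
    rw [ee_coe, hc]
    have : ∑' i, a i * (2 * ‖tt α n i‖ ^ 2) = 2 * ∑' i, a i * ‖tt α n i‖ ^ 2 := by
      rw [← tsum_mul_left]; congr 1; funext i; ring
    rw [this]
    unfold tt
    congr 1
    push_cast
    ring
  have hint : ∀ x : (ℕ → C1) × C1, ee x.2 * ((ee (Flow α a n x).2)⁻¹ ^ 2 *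
      ee (Flow α a (2 * n) x).2) = ee ((g x.1 : ℝ) : C1) := by
    intro x
    rw [two_mul]
    unfold Flow
    simp only
    rw [ee_add, ee_add, hgu, AddCircle.coe_sub, two_mul, AddCircle.coe_add]
    have h1 : ee (((Phi α a (n + n) x.1 : ℝ) : C1) - (((Phi α a n x.1 : ℝ) : C1) +
        ((Phi α a n x.1 : ℝ) : C1))) * (ee ((Phi α a n x.1 : ℝ) : C1) *
        ee ((Phi α a n x.1 : ℝ) : C1)) = ee ((Phi α a (n + n) x.1 : ℝ) : C1) := by
      rw [← ee_add, ← ee_add, sub_add_cancel]
    have h2 := ee_ne x.2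
    have h3 := ee_ne ((Phi α a n x.1 : ℝ) : C1)
    rw [← h1]
    field_simp
  rw [hexp]
  have hcont : Continuous (fun x : (ℕ → C1) × C1 => ee ((g x.1 : ℝ) : C1)) := by
    have h1 : Continuous g := by
      have : g = fun u => Phi α a (n + n) u - 2 * Phi α a n u := funext hgu
      rw [this]
      exact (continuous_Phi hα ha _).sub (continuous_const.mul (continuous_Phi hα ha _))
    exact continuous_ee.comp ((AddCircle.continuous_mk' (1:ℝ)).comp (h1.comp continuous_fst))
  have hI : ∫ x, ee x.2 * ((ee (Flow α a n x).2)⁻¹ ^ 2 *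
      ee (Flow α a (2 * n) x).2) ∂MM = ∫ x : (ℕ → C1) × C1, ee ((g x.1 : ℝ) : C1) ∂MM := by
    congr 1
    funext x
    exact hint x
  rw [hI]
  have hInt : Integrable (fun x : (ℕ → C1) × C1 => ee ((g x.1 : ℝ) : C1)) MM := by
    apply Integrable.of_bound hcont.aestronglyMeasurable 1
    exact Eventually.of_forall fun x => (norm_ee _).le
  have hsub : ∫ x : (ℕ → C1) × C1, ee ((g x.1 : ℝ) : C1) ∂MM - ee (c : C1) =
      ∫ x : (ℕ → C1) × C1, (ee ((g x.1 : ℝ) : C1) - ee (c : C1)) ∂MM := by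
    rw [integral_sub hInt (integrable_const _)]
    simp
  rw [hsub]
  have hst : Summable (fun i => ‖tt α n i‖) :=
    Summable.of_nonneg_of_le (fun i => norm_nonneg _) (fun i => norm_tt_le hα n i)
      (hα'.mul_left |(n:ℝ)|)
  have hmain : ∫⁻ x : (ℕ → C1) × C1, ‖ee ((g x.1 : ℝ) : C1) - ee (c : C1)‖ₑ ∂MM ≤
      ENNReal.ofReal (4 * ∑' i, ‖tt α n i‖) := by
    calc ∫⁻ x : (ℕ → C1) × C1, ‖ee ((g x.1 : ℝ) : C1) - ee (c : C1)‖ₑ ∂MM
        ≤ ∫⁻ x : (ℕ → C1) × C1, ∑' i, ‖ee ((a i * (‖x.1 i + (tt α n i + tt α n i)‖^2 -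
            2 * ‖x.1 i + tt α n i‖^2 + ‖x.1 i‖^2) : ℝ) : C1) -
            ee ((a i * (2 * ‖tt α n i‖ ^ 2) : ℝ) : C1)‖ₑ ∂MM := by
          apply lintegral_mono
          intro x
          exact ee_tsum _ _ (hsumX x.1) hsumc
      _ = ∑' i, ∫⁻ x : (ℕ → C1) × C1, ‖ee ((a i * (‖x.1 i + (tt α n i + tt α n i)‖^2 -
            2 * ‖x.1 i + tt α n i‖^2 + ‖x.1 i‖^2) : ℝ) : C1) -
            ee ((a i * (2 * ‖tt α n i‖ ^ 2) : ℝ) : C1)‖ₑ ∂MM := by
          rw [lintegral_tsum]
          intro i
          apply Measurable.aemeasurable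
          apply Continuous.measurable
          apply Continuous.enorm
          apply Continuous.sub _ continuous_const
          refine continuous_ee.comp ((AddCircle.continuous_mk' (1:ℝ)).comp ?_)
          fun_prop
      _ ≤ ∑' i, ENNReal.ofReal (4 * ‖tt α n i‖) := by
          apply ENNReal.tsum_le_tsum
          intro i
          have hmp : MeasurePreserving (fun x : (ℕ → C1) × C1 => x.1 i) MM volume := by
            have h1 := measurePreserving_eval_infinitePi
              (fun _ : ℕ => (volume : Measure C1)) i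
            have h2 : MeasurePreserving (Prod.fst : (ℕ → C1) × C1 → (ℕ → C1)) MM
              (Measure.infinitePi (fun _ : ℕ => (volume : Measure C1))) := by
              unfold MM
              exact measurePreserving_fst
            exact h1.comp h2
          have hm : Measurable (fun v : C1 => ‖ee ((a i * (‖v + (tt α n i + tt α n i)‖^2 -
            2 * ‖v + tt α n i‖^2 + ‖v‖^2) : ℝ) : C1) -
            ee ((a i * (2 * ‖tt α n i‖ ^ 2) : ℝ) : C1)‖ₑ) := by
            apply Continuous.measurable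
            apply Continuous.enorm
            apply Continuous.sub _ continuous_const
            refine continuous_ee.comp ((AddCircle.continuous_mk' (1:ℝ)).comp ?_)
            fun_prop
          have h3 := hmp.lintegral_comp hm
          rw [h3]
          exact one_dim _ _
      _ = ENNReal.ofReal (4 * ∑' i, ‖tt α n i‖) := by
          rw [← tsum_mul_left, ENNReal.ofReal_tsum_of_nonneg]
          · intro i; positivity
          · exact hst.mul_left 4
  have hfin : ‖∫ x : (ℕ → C1) × C1, (ee ((g x.1 : ℝ) : C1) - ee (c : C1)) ∂MM‖ ≤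
      4 * ∑' i, ‖tt α n i‖ := by
    have h1 := (enorm_integral_le_lintegral_enorm
      (fun x : (ℕ → C1) × C1 => (ee ((g x.1 : ℝ) : C1) - ee (c : C1))) (μ := MM)).trans hmain
    rw [← ofReal_norm] at h1
    exact (ENNReal.ofReal_le_ofReal_iff (by positivity)).mp h1
  have h0 : 0 ≤ ∑' i, ‖tt α n i‖ := tsum_nonneg fun i => norm_nonneg _
  calc _ ≤ 4 * ∑' i, ‖tt α n i‖ := hfin
    _ ≤ 8 * ∑' i, ‖tt α n i‖ := by linarith

end Pool.Agent.Y919.NC
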